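import Pool.Agent.helper11.RPQ.SpecU
import Pool.Agent.helper62.RS.All
import Pool.Agent.helper62.QU.CA1
import Pool.Agent.helper11.MS.SYB
import Pool.Agent.helper65.RPQ.KPS

/-!
# Row rpq:UFX (MP_07c750_an): the packet coefficients of a quasimode are almost fixed by the operator
-/

set_option autoImplicit false

open scoped MatrixGroups ContDiff Topology UpperHalfPlane ComplexConjugate
open UpperHalfPlane MeasureTheory Filter Set

namespace Pool.Agent.RPQ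

open Pool.Agent.RS
open Pool.Agent.MS (BA BB st pf gk Dk amk)

theorem UFX_cont {n : WithTop ℕ∞} {φ : ℍ → ℂ} (h : QU.CD n φ) : Continuous φ :=
  ((QU.CA1 ℂ).1 φ).1 ((QU.CA1 ℂ).2.1 φ 0 n bot_le h)

theorem UFX_int {Γ : Subgroup SL(2, ℝ)} {F : Set ℍ} (hF : QU.NiceDom Γ F) {E : Type} [NormedAddCommGroup E] {f : ℍ → E}
    (hf : Continuous f) : IntegrableOn f F := by
  obtain ⟨K, hK, hFK⟩ := hF.rel
  exact (hf.continuousOn.integrableOn_compact hK).mono_set hFK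

theorem UFX_nn {Γ : Subgroup SL(2, ℝ)} {F : Set ℍ} (hF : QU.NiceDom Γ F) {x y : ℍ → ℂ} (hx : Continuous x) (hy : Continuous y) :
    nn F (fun z => x z - y z) = nn F x - 2 * (∫ z in F, x z * conj (y z)).re + nn F y := by
  unfold nn
  have h1 : IntegrableOn (fun z => ‖x z‖ ^ 2) F := UFX_int hF (hx.norm.pow 2)
  have h2 : IntegrableOn (fun z => ‖y z‖ ^ 2) F := UFX_int hF (hy.norm.pow 2)
  have hc : Continuous (fun z => x z * conj (y z)) := hx.mul (Complex.continuous_conj.comp hy)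
  have h3 : IntegrableOn (fun z => x z * conj (y z)) F := UFX_int hF hc
  have h6 : IntegrableOn (fun z => (x z * conj (y z)).re) F := UFX_int hF (Complex.continuous_re.comp hc)
  have h4 : (∫ z in F, x z * conj (y z)).re = ∫ z in F, (x z * conj (y z)).re :=
    (integral_re h3).symm
  have h5 : (fun z => ‖x z - y z‖ ^ 2) = fun z => ‖x z‖ ^ 2 - 2 * (x z * conj (y z)).re + ‖y z‖ ^ 2 := by
    funext z
    rw [Complex.sq_norm, Complex.sq_norm, Complex.sq_norm, Complex.normSq_sub]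
    ring
  have h7 : IntegrableOn (fun z => ‖x z‖ ^ 2 - 2 * (x z * conj (y z)).re) F := h1.sub (h6.const_mul 2)
  rw [h5, integral_add h7 h2, integral_sub h1 (h6.const_mul 2), integral_const_mul, h4]

theorem UFX_wf {f x y : ℍ → ℂ} (hf : Continuous f) (hfs : HasCompactSupport f) (hx : Continuous x) (hy : Continuous y)
    (g : SL(2, ℝ)) : Wf f (fun z => x z - y z) g = Wf f x g - Wf f y g := by
  unfold Wf
  have hc : ∀ u : ℍ → ℂ, Continuous u → Integrable (fun z => f z * u (g • z)) := fun u hu =>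
    (hf.mul (hu.comp (continuous_const_smul g))).integrable_of_hasCompactSupport hfs.mul_right
  rw [← integral_sub (hc x hx) (hc y hy)]
  congr 1
  funext z
  ring

theorem UFX_wc (f x : ℍ → ℂ) (c : ℂ) (g : SL(2, ℝ)) : Wf f (fun z => c * x z) g = c * Wf f x g := by
  unfold Wf
  rw [← integral_const_mul]
  congr 1
  funext z
  ring

theorem UFX_alg {e N B S R q0 q2 : ℝ} (he0 : 0 ≤ e) (he1 : e ≤ 1) (hN : 0 ≤ N) (hR : 0 < R) (hB : 0 ≤ B)
    (hq0 : q0 ≤ e) (hq2 : q2 ≤ e) (hq00 : 0 ≤ q0)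
    (h1 : S ≤ (1 + q0) / R * B) (h2 : R * B ≤ (1 + q0) * N) (h3 : (1 - q2) * N ≤ R * B) :
    R ^ 2 * S - 2 * (R * B) + N ≤ 5 * e * N := by
  have h4 : R ^ 2 * S ≤ (1 + q0) * (R * B) := by
    calc R ^ 2 * S ≤ R ^ 2 * ((1 + q0) / R * B) := mul_le_mul_of_nonneg_left h1 (by positivity)
      _ = (1 + q0) * (R * B) := by field_simp
  have h5 : (1 + q0) * (R * B) ≤ (1 + e) * ((1 + e) * N) :=
    mul_le_mul (by linarith) (le_trans h2 (mul_le_mul_of_nonneg_right (by linarith) hN)) (by positivity) (by linarith)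
  have h6 : (1 - e) * N ≤ (1 - q2) * N := mul_le_mul_of_nonneg_right (by linarith) hN
  have h7 : e * e * N ≤ e * 1 * N := mul_le_mul_of_nonneg_right (mul_le_mul_of_nonneg_left he1 he0) hN
  nlinarith

theorem UFX_sq (x y : ℂ) : ‖x + y‖ ^ 2 ≤ 2 * ‖x‖ ^ 2 + 2 * ‖y‖ ^ 2 := by
  have h1 : ‖x + y‖ ≤ ‖x‖ + ‖y‖ := norm_add_le x y
  have h2 : ‖x + y‖ ^ 2 ≤ (‖x‖ + ‖y‖) ^ 2 := pow_le_pow_left₀ (norm_nonneg _) h1 2
  nlinarith [sq_nonneg (‖x‖ - ‖y‖)]

theorem UFX_w {R : ℝ} (hR : 0 < R) : w0 R * Real.exp (-(tau R)) = w1 R := by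
  unfold w0 w1 tau
  rw [Real.rpow_def_of_pos hR, Real.rpow_def_of_pos hR, ← Real.exp_add]
  congr 1
  ring

theorem UFX_ig {Γ : Subgroup SL(2, ℝ)} {F : Set ℍ} (hGFD : GFD_stmt) (hGBD : GBD_stmt) (hΓ : QU.SurfaceGroup Γ)
    (hF : QU.NiceDom Γ F) {u : SL(2, ℝ) → ℂ} (hu : InvG Γ u) : IntegrableOn (fun g => ‖u g‖ ^ 2) (dG F) mG := by
  have := A_GLC.2.1
  obtain ⟨m, hm⟩ := (hGBD Γ ℂ u hΓ hu).1
  obtain ⟨-, -, hfin, -⟩ := (hGFD Γ F hΓ hF).1
  refine Measure.integrableOn_of_bounded (M := m ^ 2) hfin.ne (hu.1.norm.pow 2).aestronglyMeasurable ?_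
  refine Filter.Eventually.of_forall fun g => ?_
  rw [Real.norm_of_nonneg (by positivity)]
  exact pow_le_pow_left₀ (norm_nonneg _) (hm g) 2

theorem UFX_proof (hUNF : UNF_stmt) (hF1 : F1_stmt) (hF2 : F2_stmt) (hQPS : QPS_stmt) (hTRN : TRN_stmt)
    (hCWB : CWB_stmt) : UFX_stmt := by
  have hGWB : GWB_stmt := A_GWB
  have hGFD : GFD_stmt := A_GFD
  have hGBD : GBD_stmt := A_GBD
  have hFL0 : FL0_stmt := A_FL0
  have hSYB : Pool.Agent.MS.SYB_stmt := Pool.Agent.MS.SYB_proof A_GDU A_GWB A_GFD A_GBD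
  intro Γ F α β κ C0 a η hΓ hF hα hβ hκ hC0 ha hη hη1
  obtain ⟨R1, hR1, hfr⟩ := hF1 α β hα hβ
  obtain ⟨δ2, R2, hδ2, hR2, hf2⟩ := hF2 Γ F α β η hΓ hF hα hβ hη hη1
  obtain ⟨R3, hR3, hqp⟩ := hQPS Γ F κ C0 a η hΓ hF hκ hC0 ha hη hη1
  obtain ⟨δ4, R4, hδ4, hR4, htn⟩ := hTRN Γ F α β κ C0 a η hΓ hF hα hβ hκ hC0 ha hη hη1
  obtain ⟨δm, hδm, hm1, hm2, hm4⟩ : ∃ δm : ℝ, 0 < δm ∧ δm ≤ 1 / 40 ∧ δm ≤ δ2 ∧ δm ≤ δ4 :=
    ⟨min (1 / 40) (min δ2 δ4), lt_min (by norm_num) (lt_min hδ2 hδ4), min_le_left _ _,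
      (min_le_right _ _).trans (min_le_left _ _), (min_le_right _ _).trans (min_le_right _ _)⟩
  refine ⟨δm / 2, max (max R1 R2) (max (max R3 R4) ((22 : ℝ) ^ (2 / δm))), by positivity,
    le_trans hR1 (le_trans (le_max_left _ _) (le_max_left _ _)), ?_⟩
  intro R ρ ϵ μ V φ hR hq
  have hRR1 : R1 ≤ R := le_trans (le_trans (le_max_left _ _) (le_max_left _ _)) hR
  have hRR2 : R2 ≤ R := le_trans (le_trans (le_max_right _ _) (le_max_left _ _)) hR
  have hRR3 : R3 ≤ R := le_trans (le_trans (le_max_left _ _) (le_trans (le_max_left _ _) (le_max_right _ _))) hR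
  have hRR4 : R4 ≤ R := le_trans (le_trans (le_max_right _ _) (le_trans (le_max_left _ _) (le_max_right _ _))) hR
  have hRR5 : (22 : ℝ) ^ (2 / δm) ≤ R := le_trans (le_trans (le_max_right _ _) (le_max_right _ _)) hR
  have hR1' : 1 ≤ R := le_trans hR1 hRR1
  have hRp : 0 < R := lt_of_lt_of_le one_pos hR1'
  -- the small number
  set e : ℝ := R ^ (-δm) with he
  have he0 : 0 ≤ e := (Real.rpow_pos_of_pos hRp _).le
  have he1 : e ≤ 1 := Real.rpow_le_one_of_one_le_of_nonpos hR1' (by linarith)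
  have heq0 : R ^ (-(1 / 40) : ℝ) ≤ e := Real.rpow_le_rpow_of_exponent_le hR1' (by linarith)
  have heq2 : R ^ (-δ2) ≤ e := Real.rpow_le_rpow_of_exponent_le hR1' (by linarith)
  have heq4 : R ^ (-δ4) ≤ e := Real.rpow_le_rpow_of_exponent_le hR1' (by linarith)
  have heq5 : 22 * e ≤ R ^ (-(δm / 2)) := by
    have h1 : (22 : ℝ) ≤ R ^ (δm / 2) := by
      have h2 : ((22 : ℝ) ^ (2 / δm)) ^ (δm / 2) = 22 := by
        rw [← Real.rpow_mul (by norm_num)]
        have h3 : 2 / δm * (δm / 2) = 1 := by field_simp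
        rw [h3, Real.rpow_one]
      calc (22 : ℝ) = ((22 : ℝ) ^ (2 / δm)) ^ (δm / 2) := h2.symm
        _ ≤ R ^ (δm / 2) := Real.rpow_le_rpow (by positivity) hRR5 (by positivity)
    calc 22 * e ≤ R ^ (δm / 2) * R ^ (-δm) := mul_le_mul_of_nonneg_right h1 he0
      _ = R ^ (-(δm / 2)) := by
        rw [← Real.rpow_add hRp]
        congr 1
        ring
  -- the parameters
  have hw0p : 0 < w0 R := Real.rpow_pos_of_pos hRp _
  have hw1p : 0 < w1 R := Real.rpow_pos_of_pos hRp _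
  have hw01 : w0 R ≤ 1 := Real.rpow_le_one_of_one_le_of_nonpos hR1' (by norm_num)
  have hw10 : w1 R ≤ w0 R := Real.rpow_le_rpow_of_exponent_le hR1' (by norm_num)
  have hw11 : w1 R ≤ 1 := le_trans hw10 hw01
  have hlp : 0 < R ^ (-η) := Real.rpow_pos_of_pos hRp _
  have hl1 : R ^ (-η) ≤ 1 := Real.rpow_le_one_of_one_le_of_nonpos hR1' (by linarith)
  have hl8 : R ^ (-(1 / 8) : ℝ) ≤ R ^ (-η) := Real.rpow_le_rpow_of_exponent_le hR1' (by linarith)
  have hT0 : TB (1 / 4) (cw β α (w0 R) (R ^ (-η))) := (hCWB α β _ _ hα hβ hw0p hw01 hlp hl1).2.2.2.2.2.2.1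
  have hT1 : TB (1 / 4) (cw β α (w1 R) (R ^ (-η))) := (hCWB α β _ _ hα hβ hw1p hw11 hlp hl1).2.2.2.2.2.2.1
  have hP0 := hFL0.2.1 _ R _ hT0
  have hc0 : Continuous (pk R (cw β α (w0 R) (R ^ (-η)))) := UFX_cont hP0.1
  have hs0 : HasCompactSupport (pk R (cw β α (w0 R) (R ^ (-η)))) := hP0.2
  have hP1 := hFL0.2.1 _ R _ hT1
  have hc1 : Continuous (pk R (cw β α (w1 R) (R ^ (-η)))) := UFX_cont hP1.1
  have hs1 : HasCompactSupport (pk R (cw β α (w1 R) (R ^ (-η)))) := hP1.2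
  have hQ0 : 0 ≤ R ^ (-(1 / 40) : ℝ) := (Real.rpow_pos_of_pos hRp _).le
  -- the function
  obtain ⟨-, -, hφI, ψ, hψI, hψe, hψn, -⟩ := hqp R ρ ϵ μ V φ hRR3 hq
  set b : SL(2, ℝ) → ℂ := QQ β α (w0 R) (R ^ (-η)) R φ with hb
  have hbI : InvG Γ b := (hGWB Γ _ φ hΓ hc0 hs0 hφI).1
  have hbb : ∃ m : ℝ, ∀ g, ‖b g‖ ≤ m := (hGBD Γ ℂ b hΓ hbI).1
  have hbm : Measurable b := hbI.1.measurable
  set N : ℝ := nn F φ with hN
  have hN0 : 0 ≤ N := integral_nonneg fun z => sq_nonneg _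
  set B : ℝ := iR F (fun g => ‖b g‖ ^ 2) with hB
  have hB0 : 0 ≤ B := integral_nonneg fun g => sq_nonneg _
  have hBq : B = qn F (cw β α (w0 R) (R ^ (-η))) R φ := rfl
  have hfr0 : ∀ u : ℍ → ℂ, InvC Γ u → iR F (fun g => ‖Wf (pk R (cw β α (w0 R) (R ^ (-η)))) u g‖ ^ 2) ≤
      (1 + R ^ (-(1 / 40) : ℝ)) / R * nn F u := by
    intro u hu
    have h1 := hfr Γ F R (w0 R) (R ^ (-η)) hΓ hF hRR1 hw10 le_rfl hl8 hl1 u hu
    rw [div_mul_eq_mul_div, le_div_iff₀ hRp, mul_comm]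
    exact h1
  have hκ0 : 0 ≤ (1 + R ^ (-(1 / 40) : ℝ)) / R := by positivity
  obtain ⟨hsI, hsn⟩ := hSYB Γ F _ _ hΓ hF hc0 hs0 hκ0 hfr0 b hbm hbb
  set s : ℍ → ℂ := sy Γ F (fun z => conj (pk R (cw β α (w0 R) (R ^ (-η))) z)) b with hsdef
  obtain ⟨hU1, hU2⟩ := hUNF Γ F α β η R (R * ϵ / 2) V b hΓ hF hα hβ hη hR1' hq.inv hbm hbb hbI.2
  have hin : ∫ z in F, s z * conj (φ z) = ((B : ℝ) : ℂ) := by
    rw [hU2 φ hφI]
    have h3 : (fun g => b g * conj (QQ β α (w0 R) (R ^ (-η)) R φ g)) = fun g => ((‖b g‖ ^ 2 : ℝ) : ℂ) := by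
      funext g
      show b g * conj (b g) = _
      rw [Complex.mul_conj, Complex.normSq_eq_norm_sq]
    rw [h3]
    exact integral_ofReal
  -- the difference
  have hd1 : nn F (fun z => (R : ℂ) * s z - φ z) ≤ 5 * e * N := by
    have hcs : Continuous (fun z => (R : ℂ) * s z) := continuous_const.mul hsI.1
    rw [UFX_nn hF hcs hφI.1]
    have h1 : nn F (fun z => (R : ℂ) * s z) = R ^ 2 * nn F s := by
      unfold nn
      rw [← integral_const_mul]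
      congr 1
      funext z
      rw [norm_mul, Complex.norm_real, Real.norm_of_nonneg hRp.le]
      ring
    have h2 : (∫ z in F, (R : ℂ) * s z * conj (φ z)).re = R * B := by
      have h3 : ∫ z in F, (R : ℂ) * s z * conj (φ z) = (R : ℂ) * ∫ z in F, s z * conj (φ z) := by
        rw [← integral_const_mul]
        congr 1
        funext z
        ring
      rw [h3, hin, ← Complex.ofReal_mul, Complex.ofReal_re]
    rw [h1, h2]
    refine UFX_alg he0 he1 hN0 hRp hB0 heq0 heq2 hQ0 hsn ?_ ?_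
    · exact hfr Γ F R (w0 R) (R ^ (-η)) hΓ hF hRR1 hw10 le_rfl hl8 hl1 φ hφI
    · exact hf2 R (w0 R) φ ψ hRR2 hw10 le_rfl hq.eig.1 hφI hψI hψe hψn
  have hdI : InvC Γ (fun z => (R : ℂ) * s z - φ z) :=
    ⟨(continuous_const.mul hsI.1).sub hφI.1, fun γ z => by
      show (R : ℂ) * s (γ • z) - φ (γ • z) = _
      rw [hsI.2 γ z, hφI.2 γ z]⟩
  set d : ℍ → ℂ := fun z => (R : ℂ) * s z - φ z with hd
  have hd0 : 0 ≤ nn F d := integral_nonneg fun z => sq_nonneg _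
  have hd2 : R * qn F (cw β α (w1 R) (R ^ (-η))) R d ≤ 10 * e * N := by
    have h1 := hfr Γ F R (w1 R) (R ^ (-η)) hΓ hF hRR1 le_rfl hw10 hl8 hl1 d hdI
    have h2 : (1 + R ^ (-(1 / 40) : ℝ)) * nn F d ≤ 2 * (5 * e * N) :=
      mul_le_mul (by linarith) hd1 hd0 (by norm_num)
    linarith
  -- the two parts
  set x : SL(2, ℝ) → ℂ := Wf (pk R (cw β α (w1 R) (R ^ (-η)))) d with hx
  have hxI : InvG Γ x := (hGWB Γ _ d hΓ hc1 hs1 hdI).1
  have hxaI : InvG Γ (fun g => x (g * aM (tau R))) :=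
    ⟨hxI.1.comp (continuous_mul_const _), fun γ g => by
      show x ((γ : SL(2, ℝ)) * g * aM (tau R)) = x (g * aM (tau R))
      rw [mul_assoc]
      exact hxI.2 γ _⟩
  have htr : ∫ g in dG F, ‖x (g * aM (tau R))‖ ^ 2 ∂mG = qn F (cw β α (w1 R) (R ^ (-η))) R d :=
    ((hGFD Γ F hΓ hF).2 ℝ).1 (fun g => ‖x g‖ ^ 2) (aM (tau R)) (by
      intro γ g
      rw [hxI.2 γ g])
  set y : SL(2, ℝ) → ℂ := fun g => PT β α (w0 R) (R ^ (-η)) R (tau R) φ g -
      Complex.exp (-(((th V (R * ϵ / 2) (tau R) g : ℝ) : ℂ) * Complex.I)) * b g with hy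
  have hφ1 : InvG Γ (Wf (pk R (cw β α (w1 R) (R ^ (-η)))) φ) := (hGWB Γ _ φ hΓ hc1 hs1 hφI).1
  have hPT : ∀ g, PT β α (w0 R) (R ^ (-η)) R (tau R) φ g =
      Complex.exp (((R * tau R : ℝ) : ℂ) * Complex.I) * Wf (pk R (cw β α (w1 R) (R ^ (-η)))) φ (g * aM (tau R)) := by
    intro g
    unfold PT QQ
    rw [UFX_w hRp]
  have hyI : InvG Γ y := by
    constructor
    · have h1 : Continuous (fun g => PT β α (w0 R) (R ^ (-η)) R (tau R) φ g) := by
        have h2 : (fun g => PT β α (w0 R) (R ^ (-η)) R (tau R) φ g) = fun g =>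
            Complex.exp (((R * tau R : ℝ) : ℂ) * Complex.I) * Wf (pk R (cw β α (w1 R) (R ^ (-η)))) φ (g * aM (tau R)) :=
          funext hPT
        rw [h2]
        exact continuous_const.mul (hφ1.1.comp (continuous_mul_const _))
      have h3 : Continuous (fun g => Complex.exp (-(((th V (R * ϵ / 2) (tau R) g : ℝ) : ℂ) * Complex.I))) :=
        Complex.continuous_exp.comp (((Complex.continuous_ofReal.comp (KPS_th V hq.inv.1 _ _)).mul continuous_const).neg)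
      exact h1.sub (h3.mul hbI.1)
    · intro γ g
      show PT β α (w0 R) (R ^ (-η)) R (tau R) φ ((γ : SL(2, ℝ)) * g) -
        Complex.exp (-(((th V (R * ϵ / 2) (tau R) ((γ : SL(2, ℝ)) * g) : ℝ) : ℂ) * Complex.I)) * b ((γ : SL(2, ℝ)) * g) = _
      rw [hPT, KPS_thi V hq.inv.2, hbI.2 γ g, mul_assoc, hφ1.2 γ]
      show _ = PT β α (w0 R) (R ^ (-η)) R (tau R) φ g -
        Complex.exp (-(((th V (R * ϵ / 2) (tau R) g : ℝ) : ℂ) * Complex.I)) * b g
      rw [hPT]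
  have htau : 0 ≤ tau R := div_nonneg (Real.log_nonneg hR1') (by norm_num)
  have hyn : R * iR F (fun g => ‖y g‖ ^ 2) ≤ e * N :=
    le_trans (htn R ρ ϵ μ (tau R) V φ hRR4 hq htau le_rfl) (mul_le_mul_of_nonneg_right heq4 hN0)
  -- pointwise
  have hpt : ∀ g, ‖(∫ h, stK V (R * ϵ / 2) (tau R) (uk β α η R) g h * b h ∂mG) - b g‖ ^ 2 ≤
      2 * ‖x (g * aM (tau R))‖ ^ 2 + 2 * ‖y g‖ ^ 2 := by
    intro g
    have hdx : x (g * aM (tau R)) = (R : ℂ) * Wf (pk R (cw β α (w1 R) (R ^ (-η)))) s (g * aM (tau R)) -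
        Wf (pk R (cw β α (w1 R) (R ^ (-η)))) φ (g * aM (tau R)) := by
      have hcs : Continuous (fun z => (R : ℂ) * s z) := continuous_const.mul hsI.1
      rw [hx, hd, UFX_wf hc1 hs1 hcs hφI.1, UFX_wc]
    have hee : Complex.exp (((th V (R * ϵ / 2) (tau R) g : ℝ) : ℂ) * Complex.I) *
        Complex.exp (-(((th V (R * ϵ / 2) (tau R) g : ℝ) : ℂ) * Complex.I)) = 1 := by
      rw [← Complex.exp_add, add_neg_cancel, Complex.exp_zero]
    have hD : (∫ h, stK V (R * ϵ / 2) (tau R) (uk β α η R) g h * b h ∂mG) - b g =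
        Complex.exp (((th V (R * ϵ / 2) (tau R) g : ℝ) : ℂ) * Complex.I) *
          (Complex.exp (((R * tau R : ℝ) : ℂ) * Complex.I) * x (g * aM (tau R)) + y g) := by
      rw [hU1 g, hdx]
      show _ = Complex.exp (((th V (R * ϵ / 2) (tau R) g : ℝ) : ℂ) * Complex.I) *
        (_ + (PT β α (w0 R) (R ^ (-η)) R (tau R) φ g -
          Complex.exp (-(((th V (R * ϵ / 2) (tau R) g : ℝ) : ℂ) * Complex.I)) * b g))
      rw [hPT]
      unfold QQ
      linear_combination (b g) * hee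
    rw [hD, norm_mul, Complex.norm_exp_ofReal_mul_I, one_mul]
    refine (UFX_sq _ _).trans ?_
    rw [norm_mul, Complex.norm_exp_ofReal_mul_I, one_mul]
  have hix := UFX_ig hGFD hGBD hΓ hF hxaI
  have hiy := UFX_ig hGFD hGBD hΓ hF hyI
  have hI : iR F (fun g => ‖(∫ h, stK V (R * ϵ / 2) (tau R) (uk β α η R) g h * b h ∂mG) - b g‖ ^ 2) ≤
      2 * qn F (cw β α (w1 R) (R ^ (-η))) R d + 2 * iR F (fun g => ‖y g‖ ^ 2) := by
    have h1 : iR F (fun g => ‖(∫ h, stK V (R * ϵ / 2) (tau R) (uk β α η R) g h * b h ∂mG) - b g‖ ^ 2) ≤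
        ∫ g in dG F, (2 * ‖x (g * aM (tau R))‖ ^ 2 + 2 * ‖y g‖ ^ 2) ∂mG :=
      integral_mono_of_nonneg (Eventually.of_forall fun g => sq_nonneg _) ((hix.const_mul 2).add (hiy.const_mul 2))
        (Eventually.of_forall hpt)
    refine h1.trans (le_of_eq ?_)
    rw [integral_add (hix.const_mul 2) (hiy.const_mul 2), integral_const_mul, integral_const_mul, htr]
    rfl
  have hfin : R * iR F (fun g => ‖(∫ h, stK V (R * ϵ / 2) (tau R) (uk β α η R) g h * b h ∂mG) - b g‖ ^ 2) ≤ 22 * e * N := by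
    have h1 := mul_le_mul_of_nonneg_left hI hRp.le
    linarith
  exact hfin.trans (mul_le_mul_of_nonneg_right heq5 hN0)

end Pool.Agent.RPQ
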